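import Mathlib
import Pool.Agent.Helper83.OD.Main

/-!
# Q1 is equivalent to its case in the single degree `d + 3`

The definitions are in `Pool/Agent/Helper83/OD/Defs.lean`. The schemes are Mathlib's schemes. `T.BM X j` is the
étale motivic Borel-Moore homology `H_j(X_et, ℤᶜ(0))` of a separated scheme `X` of finite type over `ℤ`, and
`T.H X d i = T.BM X (2 d - i)` is `Hⁱ(X_et, ℤ(d))` for `X` regular of dimension `d`. `Arithmetic X d` is the class
of Q1. The number `t = 2 d - i` is the codegree.

Proof of the first part. Since `Hⁱ(X_et, ℤ(d))` is a summand of `Hⁱ⁺²ᴺ((ℙ^N × X)_et, ℤ(d + N))`, finite generation in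
the codegree `t` and the dimension `D` gives it in all dimensions `d ≤ D`. Let `d ≥ t + 4`, and let `X` be a scheme
over the Gaussian integers. Let `A = H_t(X)`, and for a nonempty affine open subscheme `V` let `A(V)` be the
kernel of the restriction to `H_t(V)`. By Artin vanishing `A / A(V)` is torsion free, and `A` is the union of the
`A(V)`; since `A / 2 A` is finite, Nakayama's lemma shows that `A` is finitely generated if all `A(V)` are. Let
`X' ⟶ X` be an alteration such that the preimage of `X ∖ V` is a divisor `E` with strict normal crossings, and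
let `Y` be an ample regular divisor on `X'` which meets all strata of `E` transversally. By induction on the
dimension the groups `H_q(C ∖ Y)`, `C` a stratum of dimension `e`, are finitely generated for `0 ≤ q ≤ e - 3`, and
they are divisible by Artin vanishing, so they are zero. It follows that `H_t(E ∖ Y)` is a torsion group.
The pull-back of an element of `A(V)` comes from `E`, so its restriction to `X' ∖ Y` is torsion, so it is zero,
and the pull-back comes from `H_t(Y)`, which is finitely generated by induction.

The case `t = S = 0` of the second part concerns the degree `i = 2 d`: since `CH_0(X)` is finitely generated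
(Kato and Saito), `H²ᵈ(X_et, ℤ(d))` is finitely generated if and only if Kato's homology group `KH_2(X, ℚ/ℤ)`
is zero, so this conjecture of Kato in the dimension `3` implies it in all dimensions, all primes included.
-/

set_option autoImplicit false

open CategoryTheory AlgebraicGeometry

namespace Pool.Agent.Results.MP_c71c7a_nt.OneDegree

open Pool.Agent.Helper83.OD

open Pool.Agent.Helper83.AS (Arithmetic)

universe v

/-- (1) Q1 holds for all regular connected proper schemes `X` if and only if the group `Hᵈ⁺³(X_et, ℤ(d))` is
finitely generated for all such `X` of dimension `d ≥ 3`.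

(2) More generally, let `D t ≥ t + 3` for all `t`. For every `S`: the groups `H²ᵈ⁻ᵗ(X_et, ℤ(d))`, `t ≤ S`, are
finitely generated for all `X` of all dimensions `d` (with `t ≤ 2 d`) if and only if they are finitely
generated for all `X` of the single dimension `d = D t`, for every `t ≤ S`. -/
theorem result (T : Theory.{v}) (hT : T.Standard) (hG : Geometry) :
    ((∀ d : ℕ, 3 ≤ d → ∀ X : Scheme.{0}, Arithmetic X d → AddGroup.FG (T.H X d (d + 3))) ↔
      ∀ (X : Scheme.{0}) (d : ℕ), Arithmetic X d → T.Q1 X d) ∧
    ∀ (D : ℕ → ℕ) (S : ℕ), (∀ t, t + 3 ≤ D t) →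
      ((∀ t ≤ S, ∀ X : Scheme.{0}, Arithmetic X (D t) → AddGroup.FG (T.H X (D t) (2 * D t - t))) ↔
        ∀ t ≤ S, ∀ (X : Scheme.{0}) (d : ℕ), Arithmetic X d → t ≤ 2 * d →
          AddGroup.FG (T.H X d (2 * d - t))) := by
  -- the general equivalence, in all dimensions
  have h1 : ∀ (D : ℕ → ℕ) (S : ℕ), (∀ t, t + 3 ≤ D t) →
      (∀ t ≤ S, ∀ X : Scheme.{0}, Arithmetic X (D t) → AddGroup.FG (T.H X (D t) (2 * D t - t))) →
      ∀ t ≤ S, ∀ (X : Scheme.{0}) (d : ℕ), Arithmetic X d → AddGroup.FG (T.H X d (2 * d - t)) := by
    intro D S hD h t ht X d hX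
    refine (fg_H (by ring)).2 (fg_all hT hG D hD S (fun t ht X hX => (fg_H (by ring)).1 (h t ht X hX))
      d t (by omega) (by exact_mod_cast ht) X hX)
  refine ⟨⟨fun h X d hX i hi0 hi => ?_, fun h d _ X hX => h X d hX _ (by omega) (by omega)⟩,
    fun D S hD => ⟨fun h t ht X d hX _ => h1 D S hD h t ht X d hX, fun h t ht X hX =>
      h t ht X (D t) hX (by have := hD t; omega)⟩⟩
  obtain ⟨t, ht⟩ := Int.eq_ofNat_of_zero_le (sub_nonneg.2 hi)
  have h3 := h1 (fun t => t + 3) t (fun t => le_rfl) (fun t _ X hX => by
    have h4 := h (t + 3) (by omega) X hX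
    refine (fg_H ?_).2 ((fg_H (j := (t : ℤ)) ?_).1 h4)
    · ring
    · push_cast; ring) t le_rfl X d hX
  exact (fg_H (by omega)).2 ((fg_H (j := (t : ℤ)) (by ring)).1 h3)

end Pool.Agent.Results.MP_c71c7a_nt.OneDegree
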