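import Mathlib
import Pool.Agent.Helper83.TD.Final

/-!
# Q1 in the top degree `i = 2 d`

The definitions are in `Pool/Agent/Helper83/TD/Defs.lean`. The schemes are Mathlib's schemes. `Arithmetic X d` is
the class of Q1, and `T.Top X = H²ᵈ(X_et, ℤ(d))`, `d = dim X`. The theorem: if `X` in this class is flat over `ℤ` and
`d ≥ 3`, then the group `H²ᵈ(X_et, ℤ(d))` is finite.

Remarks, not in the Lean. For `d ≤ 2` the group is finite by the finiteness of the class number and by Kato
(1986), and if `X` is a scheme over a finite field, then the group is known to be finitely generated. Since
`CH_0(X)` is finite and `H²ᵈ(X_et, ℤ(d)) / CH_0(X) = KH_2(X, ℚ/ℤ)`, a divisible group up to the real points, the theorem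
is equivalent to Kato's conjecture `KH_2(X, ℚ/ℤ) = 0` (no real points), at all primes and without any condition
on the bad reduction.

Proof. Let `X` be flat. The first part is the theorem `detected` (`TD/Key.lean`): if `h` in `H²(X_et, ℤ_p)` is torsion
on all regular proper flat surfaces `S ⟶ X`, then it is torsion. Induction on `dim X`, starting with `2`.
* Let `g : V ⟶ W` be an elementary fibration of an open subscheme `V` of `X`, with `W` open in a projective space.
  The image `c` of `h` in `H¹(W, R¹g_* ℤ_p)` is torsion on every curve in `W`, because the part of `V` over the curve
  extends to a surface over `X`. By Hilbert's irreducibility theorem `c` is torsion. So `N h = g^* w` on `V`.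
* A multisection of `g` extends to a regular proper `Y ⟶ X` of smaller dimension, so by induction `w` is torsion
  on a finite flat covering of `W`, so `w` is torsion, and `h` is torsion on `V`.
* By purity a multiple of `h` comes from `s` in `L = H²` with supports in `X_p`.
* On a surface `S` a multiple `M s` comes from `H¹(S[1/p], ℤ_p)`, which is `H¹(X[1/p], ℤ_p) = H¹(O_L[1/p], ℤ_p)` if `S` has
  the same constants (Katz-Lang). Any curve `E` in `X` is together with one fixed curve in such a surface, and
  `H¹(O[1/p], ℤ_p) ⟶ H²_(X_p)` is injective for curves. So one element `c` of `H¹(X[1/p], ℤ_p)` and one `M` suffice: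
  `M s - δ c` is zero on every curve.
* An element of `L`, not divisible by `p`, gives a `ℤ/p`-covering near some point of `X_p` which does not extend.
  By purity it is ramified along a component of `X_p`, and it stays ramified on a curve. (At the generic point
  of the component the covering is given by an Eisenstein equation in a uniformizer `π`, or by an equation
  `wᵖ + ⋯ + b = 0` with `b = -u` modulo `π`, where `du ≠ 0`; a curve on which `π` and `b` are uniformizers will do.) So
  `M s = δ c`, and `h` is torsion.

The second part is in `TD/Final.lean`. Since `H²(X_et, ℤ_p)` is finitely generated, finitely many surfaces suffice,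
and by Geisser's duality the `p`-primary part of `T.Top X` is generated by the images of the finite groups
`T.Top S`, up to a finite group. So all primary parts of the torsion group `T.Top X` are finite. Since the
quotients `T.Top X / N` are bounded (class field theory), `T.Top X` is finite.
-/

set_option autoImplicit false

open CategoryTheory AlgebraicGeometry

namespace Pool.Agent.Results.MP_c71c7a_nt.TopDegree

open Pool.Agent.Helper83.TD

universe v

/-- Let `X` be a regular connected scheme, proper over `ℤ`, of dimension `d ≥ 3`, which is not a scheme over a
finite field (so `X` is flat over `ℤ`). Then the group `H²ᵈ(X_et, ℤ(d))` is finite. -/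
theorem result (T : Theory.{v}) (hT : T.Standard) (hG : Geometry) :
    ∀ (X : Scheme.{0}) (d : ℕ), 3 ≤ d → Arithmetic X d → ¬ Positive X → Finite (T.Top X) :=
  fun _ _ hd hX hp => finite_top hT hG (by omega) ⟨hX, hp⟩

end Pool.Agent.Results.MP_c71c7a_nt.TopDegree
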